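import Mathlib

/-!
# Jets of very well covered graphs are very well covered

A finite graph `G` without isolated vertices is very well covered if and only if it has a perfect
matching `v ↦ σ v` such that `G.Adj x a` and `G.Adj (σ x) b` always imply `G.Adj a b` (Favaron).
If `σ` is such a matching of `G`, then `(v, i) ↦ (σ v, s - i)` is such a matching of `J_s(G)`.
-/

set_option autoImplicit false

namespace Pool.Agent.V7H38.Withdrawn.JetsVeryWellCovered

open Finset

/-- `G` is well covered: all inclusion-maximal independent sets have the same size. -/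
def WellCovered {V : Type*} (G : SimpleGraph V) : Prop :=
  ∀ S T : Set V, Maximal G.IsIndepSet S → Maximal G.IsIndepSet T → S.ncard = T.ncard

/-- `G` is very well covered: it has no isolated vertices, is well covered, and `|V| = 2 α(G)`. -/
def VeryWellCovered {V : Type*} (G : SimpleGraph V) : Prop :=
  (∀ v, ∃ w, G.Adj v w) ∧ WellCovered G ∧ Nat.card V = 2 * G.indepNum

/-- The graph of `s`-jets `J_s(G)`: the vertices are the pairs `(v, i)`, `0 ≤ i ≤ s`, and `(v, i)`,
`(w, j)` are adjacent if `vw` is an edge of `G` and `i + j ≤ s`. -/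
def jets {V : Type*} (G : SimpleGraph V) (s : ℕ) : SimpleGraph (V × Fin (s + 1)) where
  Adj x y := G.Adj x.1 y.1 ∧ x.2.val + y.2.val ≤ s
  symm := ⟨fun x y h => ⟨h.1.symm, by have := h.2; omega⟩⟩
  loopless := ⟨fun x h => G.loopless.irrefl x.1 h.1⟩

variable {V : Type*}

lemma maximal_iff (G : SimpleGraph V) (S : Set V) : Maximal G.IsIndepSet S ↔
    (∀ x ∈ S, ∀ y ∈ S, ¬ G.Adj x y) ∧ ∀ v, v ∉ S → ∃ w ∈ S, G.Adj v w := by
  constructor
  · rintro ⟨h1, h2⟩
    have h1' : ∀ x ∈ S, ∀ y ∈ S, ¬ G.Adj x y := by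
      intro x hx y hy hadj
      exact h1 hx hy hadj.ne hadj
    refine ⟨h1', fun v hv => ?_⟩
    by_contra hcon
    push Not at hcon
    have h3 : G.IsIndepSet (insert v S) := by
      intro x hx y hy hne
      rw [Set.mem_insert_iff] at hx hy
      rcases hx with rfl | hx
      · rcases hy with rfl | hy
        · exact absurd rfl hne
        · exact hcon y hy
      · rcases hy with rfl | hy
        · exact fun h => hcon x hx h.symm
        · exact h1' x hx y hy
    exact hv (h2 h3 (Set.subset_insert v S) (Set.mem_insert v S))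
  · rintro ⟨h1, h2⟩
    refine ⟨fun x hx y hy _ => h1 x hx y hy, fun T hT hST v hv => ?_⟩
    by_contra hcon
    obtain ⟨w, hw, hadj⟩ := h2 v hcon
    exact hT hv (hST hw) hadj.ne hadj

/-- every independent set is contained in a maximal one -/
lemma exists_maximal [Finite V] (G : SimpleGraph V) (A : Set V) (hA : G.IsIndepSet A) :
    ∃ S, A ⊆ S ∧ Maximal G.IsIndepSet S :=
  (Set.toFinite {S | G.IsIndepSet S}).exists_le_maximal hA

/-- Favaron's condition -/
def Fav (G : SimpleGraph V) (σ : V → V) : Prop :=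
  (∀ v, G.Adj v (σ v)) ∧ (∀ v, σ (σ v) = v) ∧ ∀ x a b, G.Adj x a → G.Adj (σ x) b → G.Adj a b

lemma card_of_fav [Finite V] {G : SimpleGraph V} {σ : V → V} (h : Fav G σ) (S : Set V)
    (hS : Maximal G.IsIndepSet S) : 2 * S.ncard = Nat.card V := by
  rw [maximal_iff] at hS
  have himg : σ '' S = Sᶜ := by
    ext v
    constructor
    · rintro ⟨w, hw, rfl⟩ hv
      exact hS.1 w hw _ hv (h.1 w)
    · intro hv
      refine ⟨σ v, ?_, h.2.1 v⟩
      by_contra hcon
      obtain ⟨a, ha, h1⟩ := hS.2 v hv
      obtain ⟨b, hb, h2⟩ := hS.2 _ hcon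
      exact hS.1 a ha b hb (h.2.2 v a b h1 h2)
  have hinj : Function.Injective σ := by
    intro x y hxy
    rw [← h.2.1 x, ← h.2.1 y, hxy]
  have h1 : Sᶜ.ncard = S.ncard := by
    rw [← himg, Set.ncard_image_of_injective _ hinj]
  have h2 := Set.ncard_add_ncard_compl S
  omega

lemma vwc_of_fav [Finite V] {G : SimpleGraph V} {σ : V → V} (h : Fav G σ) : VeryWellCovered G := by
  refine ⟨fun v => ⟨σ v, h.1 v⟩, ?_, ?_⟩
  · intro S T hS hT
    have h1 := card_of_fav h S hS
    have h2 := card_of_fav h T hT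
    omega
  · obtain ⟨S, hS⟩ := SimpleGraph.maximumIndepSet_exists (G := G)
    have h1 := card_of_fav h _ (SimpleGraph.IsMaximumIndepSet.isMaximalIndepSet S hS)
    rw [Set.ncard_coe_finset, SimpleGraph.maximumIndepSet_card_eq_indepNum S hS] at h1
    exact h1.symm

lemma card_of_vwc [Finite V] {G : SimpleGraph V} (h : VeryWellCovered G) (S : Set V)
    (hS : Maximal G.IsIndepSet S) : 2 * S.ncard = Nat.card V := by
  obtain ⟨T, hT⟩ := SimpleGraph.maximumIndepSet_exists (G := G)
  have h1 := h.2.1 S _ hS (SimpleGraph.IsMaximumIndepSet.isMaximalIndepSet T hT)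
  rw [Set.ncard_coe_finset, SimpleGraph.maximumIndepSet_card_eq_indepNum T hT] at h1
  rw [h1, h.2.2]

open Classical in
/-- Berge: `|A| ≤ |N(A)|` for every independent set `A` of a well covered graph without isolated
vertices. -/
lemma berge [Fintype V] {G : SimpleGraph V} (h0 : ∀ v, ∃ w, G.Adj v w)
    (hc : ∀ S T : Set V, Maximal G.IsIndepSet S → Maximal G.IsIndepSet T → S.ncard = T.ncard) (n : ℕ) :
    ∀ A : Finset V, A.card ≤ n → (∀ x ∈ A, ∀ y ∈ A, ¬ G.Adj x y) →
      A.card ≤ (univ.filter (fun w => ∃ a ∈ A, G.Adj a w)).card := by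
  induction n with
  | zero =>
    intro A hA _
    omega
  | succ n ih =>
    intro A hA hind
    rcases A.eq_empty_or_nonempty with rfl | ⟨a0, ha0⟩
    · simp
    -- a vertex of `N(A)` and a maximal independent set containing a maximal independent subset of
    -- `N(A)`
    set N : Set V := {w | ∃ a ∈ A, G.Adj a w} with hN
    obtain ⟨B, -, hB⟩ := (Set.toFinite {B : Set V | B ⊆ N ∧ G.IsIndepSet B}).exists_le_maximal
      (show (∅ : Set V) ∈ {B : Set V | B ⊆ N ∧ G.IsIndepSet B} from
        ⟨Set.empty_subset _, by intro x hx; exact absurd hx (Set.notMem_empty x)⟩)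
    have hBN : B ⊆ N := hB.prop.1
    have hBi : G.IsIndepSet B := hB.prop.2
    have hBi' : ∀ x ∈ B, ∀ y ∈ B, ¬ G.Adj x y := fun x hx y hy hadj => hBi hx hy hadj.ne hadj
    have hBmax : ∀ w ∈ N, w ∉ B → ∃ z ∈ B, G.Adj w z := by
      intro w hw hwB
      by_contra hcon
      push Not at hcon
      have h3 : G.IsIndepSet (insert w B) := by
        intro x hx y hy hne
        rw [Set.mem_insert_iff] at hx hy
        rcases hx with rfl | hx
        · rcases hy with rfl | hy
          · exact absurd rfl hne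
          · exact hcon y hy
        · rcases hy with rfl | hy
          · exact fun h => hcon x hx h.symm
          · exact hBi' x hx y hy
      exact hwB (hB.2 ⟨Set.insert_subset hw hBN, h3⟩ (Set.subset_insert w B) (Set.mem_insert w B))
    obtain ⟨I, hBI, hI⟩ := exists_maximal G B hBi
    have hI' := (maximal_iff G I).1 hI
    -- `I ∩ N = B`
    have hIN : ∀ w ∈ I, w ∈ N → w ∈ B := by
      intro w hw hwN
      by_contra hwB
      obtain ⟨z, hz, hadj⟩ := hBmax w hwN hwB
      exact hI'.1 w hw z (hBI hz) hadj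
    -- the independent set `(I \ B) ∪ A`
    set J : Set V := (I \ B) ∪ (A : Set V) with hJ
    have hJi : G.IsIndepSet J := by
      have hsym : ∀ x ∈ I \ B, ∀ y ∈ (A : Set V), ¬ G.Adj x y := by
        intro x hx y hy hadj
        exact hx.2 (hIN x hx.1 ⟨y, hy, hadj.symm⟩)
      intro x hx y hy _
      rcases hx with hx | hx
      · rcases hy with hy | hy
        · exact hI'.1 x hx.1 y hy.1
        · exact hsym x hx y hy
      · rcases hy with hy | hy
        · exact fun h => hsym y hy x hx h.symm
        · exact hind x hx y hy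
    obtain ⟨K, hJK, hK⟩ := exists_maximal G J hJi
    have hcard : J.ncard ≤ I.ncard := by
      rw [hc I K hI hK]
      exact Set.ncard_le_ncard hJK (Set.toFinite K)
    -- split `A`
    set A1 : Finset V := A.filter (fun a => ∃ z ∈ B, G.Adj a z) with hA1
    set A2 : Finset V := A.filter (fun a => ¬ ∃ z ∈ B, G.Adj a z) with hA2
    have hA12 : A1.card + A2.card = A.card := Finset.card_filter_add_card_filter_not _
    have hA1B : A1.card ≤ B.ncard := by
      have hdisj : Disjoint (I \ B) (A1 : Set V) := by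
        rw [Set.disjoint_left]
        intro x hx hxA
        rw [hA1, Finset.mem_coe, Finset.mem_filter] at hxA
        obtain ⟨z, hz, hadj⟩ := hxA.2
        exact hI'.1 x hx.1 z (hBI hz) hadj
      have hsub : (I \ B) ∪ (A1 : Set V) ⊆ J := by
        apply Set.union_subset_union_right
        intro x hx
        rw [hA1, Finset.mem_coe, Finset.mem_filter] at hx
        exact hx.1
      have h1 := Set.ncard_le_ncard hsub (Set.toFinite J)
      rw [Set.ncard_union_eq hdisj (Set.toFinite _) (Set.toFinite _), Set.ncard_coe_finset] at h1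
      have h2 := Set.ncard_sdiff_add_ncard_of_subset hBI (Set.toFinite I)
      omega
    -- `N(A)` contains the disjoint sets `B` and `N(A2)`
    have hsub : B ∪ ((univ.filter (fun w => ∃ a ∈ A2, G.Adj a w) : Finset V) : Set V) ⊆
        ((univ.filter (fun w => ∃ a ∈ A, G.Adj a w) : Finset V) : Set V) := by
      intro w hw
      rw [Finset.mem_coe, Finset.mem_filter]
      refine ⟨Finset.mem_univ _, ?_⟩
      rcases hw with hw | hw
      · exact hBN hw
      · rw [Finset.mem_coe, Finset.mem_filter] at hw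
        obtain ⟨a, ha, hadj⟩ := hw.2
        rw [hA2, Finset.mem_filter] at ha
        exact ⟨a, ha.1, hadj⟩
    have hdisj : Disjoint B ((univ.filter (fun w => ∃ a ∈ A2, G.Adj a w) : Finset V) : Set V) := by
      rw [Set.disjoint_left]
      intro w hw hw2
      rw [Finset.mem_coe, Finset.mem_filter] at hw2
      obtain ⟨a, ha, hadj⟩ := hw2.2
      rw [hA2, Finset.mem_filter] at ha
      exact ha.2 ⟨w, hw, hadj⟩
    have hBne : A1.Nonempty := by
      obtain ⟨w, hw⟩ := h0 a0
      have hwN : w ∈ N := ⟨a0, ha0, hw⟩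
      by_cases hwB : w ∈ B
      · exact ⟨a0, by rw [hA1, Finset.mem_filter]; exact ⟨ha0, w, hwB, hw⟩⟩
      · obtain ⟨z, hz, -⟩ := hBmax w hwN hwB
        obtain ⟨a, ha, hadj⟩ := hBN hz
        exact ⟨a, by rw [hA1, Finset.mem_filter]; exact ⟨ha, z, hz, hadj⟩⟩
    have hA1pos := hBne.card_pos
    have h2 := ih A2 (by omega) (fun x hx y hy => by
      rw [hA2, Finset.mem_filter] at hx hy
      exact hind x hx.1 y hy.1)
    have h3 := Set.ncard_le_ncard hsub (Set.toFinite _)
    rw [Set.ncard_union_eq hdisj (Set.toFinite _) (Set.toFinite _), Set.ncard_coe_finset,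
      Set.ncard_coe_finset] at h3
    omega

open Classical in
/-- Favaron: a very well covered graph has a perfect matching with the stated property. -/
lemma fav_of_vwc [Fintype V] {G : SimpleGraph V} (h : VeryWellCovered G) : ∃ σ, Fav G σ := by
  -- a maximal independent set and Hall's theorem
  obtain ⟨S, -, hS⟩ := exists_maximal G ∅ (by intro x hx; exact absurd hx (Set.notMem_empty x))
  have hcardS := card_of_vwc h S hS
  have hS' := (maximal_iff G S).1 hS
  have hall := (Finset.all_card_le_biUnion_card_iff_exists_injective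
    (ι := S) (fun x => G.neighborFinset x.1)).1 (by
      intro A
      have h1 := berge h.1 h.2.1 (A.map (Function.Embedding.subtype _)).card
        (A.map (Function.Embedding.subtype _)) le_rfl (by
          intro x hx y hy
          rw [Finset.mem_map] at hx hy
          obtain ⟨x', -, rfl⟩ := hx
          obtain ⟨y', -, rfl⟩ := hy
          exact hS'.1 _ x'.2 _ y'.2)
      rw [Finset.card_map] at h1
      refine h1.trans (Finset.card_le_card ?_)
      intro w hw
      rw [Finset.mem_filter] at hw
      obtain ⟨a, ha, hadj⟩ := hw.2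
      rw [Finset.mem_map] at ha
      obtain ⟨a', ha', rfl⟩ := ha
      rw [Finset.mem_biUnion]
      exact ⟨a', ha', (SimpleGraph.mem_neighborFinset _ _ _).2 hadj⟩)
  obtain ⟨f, hf, hfadj⟩ := hall
  simp only [SimpleGraph.mem_neighborFinset] at hfadj
  -- `f` is a bijection from `S` to its complement
  have hfS : ∀ x, f x ∉ S := fun x hx => hS'.1 _ x.2 _ hx (hfadj x)
  have hsurj : ∀ y, ∃ x : V, y ∉ S → ∃ hx : x ∈ S, f ⟨x, hx⟩ = y := by
    have h1 : Set.range f = Sᶜ := by
      apply Set.eq_of_subset_of_ncard_le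
      · rintro y ⟨x, rfl⟩
        exact hfS x
      · have h2 : (Set.range f).ncard = S.ncard := by
          rw [← Set.image_univ, Set.ncard_image_of_injective _ hf, Set.ncard_univ]
          rfl
        have h3 := Set.ncard_add_ncard_compl S
        omega
      · exact Set.toFinite _
    intro y
    by_cases hy : y ∈ S
    · exact ⟨y, fun h => absurd hy h⟩
    · have : y ∈ Set.range f := by rw [h1]; exact hy
      obtain ⟨x, hx⟩ := this
      exact ⟨x.1, fun _ => ⟨x.2, hx⟩⟩
  choose g hg using hsurj
  set σ : V → V := fun v => if hv : v ∈ S then f ⟨v, hv⟩ else g v with hσ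
  have hσ1 : ∀ v (hv : v ∈ S), σ v = f ⟨v, hv⟩ := fun v hv => by rw [hσ]; simp [hv]
  have hσ2 : ∀ v, v ∉ S → σ v = g v := fun v hv => by rw [hσ]; simp [hv]
  have hadj : ∀ v, G.Adj v (σ v) := by
    intro v
    by_cases hv : v ∈ S
    · rw [hσ1 v hv]
      exact hfadj ⟨v, hv⟩
    · rw [hσ2 v hv]
      obtain ⟨hx, hfx⟩ := hg v hv
      have := hfadj ⟨g v, hx⟩
      rw [hfx] at this
      exact this.symm
  have hinv : ∀ v, σ (σ v) = v := by
    intro v
    by_cases hv : v ∈ S
    · rw [hσ1 v hv, hσ2 _ (hfS _)]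
      obtain ⟨hx, hfx⟩ := hg (f ⟨v, hv⟩) (hfS _)
      exact congrArg Subtype.val (hf hfx)
    · obtain ⟨hx, hfx⟩ := hg v hv
      rw [hσ2 v hv, hσ1 _ hx]
      exact hfx
  refine ⟨σ, hadj, hinv, ?_⟩
  intro x a b ha hb
  by_contra hcon
  have hind : G.IsIndepSet {a, b} := by
    intro p hp q hq hne
    rw [Set.mem_insert_iff, Set.mem_singleton_iff] at hp hq
    rcases hp with rfl | rfl
    · rcases hq with rfl | rfl
      · exact absurd rfl hne
      · exact hcon
    · rcases hq with rfl | rfl
      · exact fun h => hcon h.symm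
      · exact absurd rfl hne
  obtain ⟨I, hsub, hI⟩ := exists_maximal G _ hind
  have hcardI := card_of_vwc h I hI
  have hI' := (maximal_iff G I).1 hI
  have haI : a ∈ I := hsub (by simp)
  have hbI : b ∈ I := hsub (by simp)
  have hxI : x ∉ I := fun hx => hI'.1 x hx a haI ha
  have hσxI : σ x ∉ I := fun hx => hI'.1 _ hx b hbI hb
  have hinj : Function.Injective σ := by
    intro p q hpq
    rw [← hinv p, ← hinv q, hpq]
  have h1 : insert x (σ '' I) ⊆ Iᶜ := by
    intro y hy
    rw [Set.mem_insert_iff] at hy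
    rcases hy with rfl | ⟨z, hz, rfl⟩
    · exact hxI
    · exact fun hy => hI'.1 z hz _ hy (hadj z)
  have h2 := Set.ncard_le_ncard h1 (Set.toFinite _)
  rw [Set.ncard_insert_of_notMem (by
    rintro ⟨z, hz, hzx⟩
    apply hσxI
    rw [← hzx, hinv]
    exact hz) (Set.toFinite _), Set.ncard_image_of_injective _ hinj] at h2
  have h3 := Set.ncard_add_ncard_compl I
  omega

/-- For every finite very well covered graph `G` and every `s ≥ 0` the graph of `s`-jets of `G` is
very well covered. -/
theorem result {V : Type*} [Finite V] (G : SimpleGraph V) (hG : VeryWellCovered G) (s : ℕ) :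
    VeryWellCovered (jets G s) := by
  have := Fintype.ofFinite V
  obtain ⟨σ, h1, h2, h3⟩ := fav_of_vwc hG
  refine vwc_of_fav (σ := fun x => (σ x.1, ⟨s - x.2.val, by omega⟩)) ⟨?_, ?_, ?_⟩
  · rintro ⟨v, i⟩
    refine ⟨h1 v, ?_⟩
    have := i.2
    simp only
    omega
  · rintro ⟨v, i⟩
    have := i.2
    simp only [Prod.mk.injEq]
    refine ⟨h2 v, Fin.ext ?_⟩
    simp only
    omega
  · rintro ⟨x, i⟩ ⟨a, j⟩ ⟨b, l⟩ ⟨ha, hij⟩ ⟨hb, hil⟩
    refine ⟨h3 x a b ha hb, ?_⟩
    simp only at hij hil ⊢
    have := i.2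
    omega

end Pool.Agent.V7H38.Withdrawn.JetsVeryWellCovered
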